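import Mathlib
import Pool.Agent.N672.Opn.Fin

set_option autoImplicit false

/-!
# The exponents of an odd perfect number with a large least prime factor, uniformly

Let `N` be an odd perfect number, `v p` the exponent of `p` in `N` and `P` its least prime factor.  The
starting results show for a *fixed* number `B` that most prime factors `p` up to `x` have a `v p + 1`
without prime factors `≤ B`, and that `log N / P ^ 2` tends to infinity with `P`.  Here everything is
uniform for primes `l` up to any power of `log P`: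

* at most `x (log P) ^ (ε - 2)` prime factors `p ≤ x` of `N` satisfy `l ∣ v p + 1`, for all `x ≥ P`;
* `log N ≥ P ^ 2 (log P) ^ (1 - ε)` and `Ω(N) ≥ P ^ 2 (log P) ^ (- ε)`;
* a set `S` of at most `(log P) ^ (1 - ε)` primes `≤ (log P) ^ A` does not cover all the numbers
  `v p + 1`; in particular some `v p + 1` has no prime factor `≤ (log P) ^ (1 - ε)`.  In other words, if
  all the numbers `v p + 1` have a prime factor `≤ B`, then `P ≤ exp (B ^ (1 + ε))` for large `B`;
* if the exponents take at most `(log P) ^ (1 - ε)` distinct values, then some exponent is larger than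
  `(log P) ^ A`, and `log N ≥ P ^ 2 (log P) ^ A`, `Ω(N) ≥ P ^ 2 (log P) ^ A`.

The proof uses the large sieve, the theorem of Siegel and Walfisz for the prime moduli `l`, and, for the
third assertion, sieves in the progressions `1` modulo `l` together with an induction over the ranges
`(P ^ (2 ^ j), P ^ (2 ^ (j + 1))]` for the sums `∑ l / q` over the prime factors `q ≡ 1` modulo `l`.
-/

namespace Pool.Agent.Results.MP_f02ea4_nt.UniformExponents

open Finset

/-- **Main theorem.** -/
theorem result (ε : ℝ) (hε : 0 < ε) (A : ℕ) : ∃ P₀ : ℕ, ∀ N : ℕ, Odd N → Nat.Perfect N →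
    P₀ ≤ N.minFac →
    (∀ l : ℕ, l.Prime → (l : ℝ) ≤ Real.log N.minFac ^ A → ∀ x : ℕ, N.minFac ≤ x →
      (({p ∈ N.primeFactors | p ≤ x ∧ l ∣ N.factorization p + 1}.card : ℕ) : ℝ) ≤
        x * Real.log N.minFac ^ (ε - 2)) ∧
    (N.minFac : ℝ) ^ 2 * Real.log N.minFac ^ (1 - ε) ≤ Real.log N ∧
    (N.minFac : ℝ) ^ 2 * Real.log N.minFac ^ (-ε) ≤ (ArithmeticFunction.cardFactors N : ℝ) ∧
    (∀ S : Finset ℕ, (∀ l ∈ S, l.Prime ∧ (l : ℝ) ≤ Real.log N.minFac ^ A) →
      (S.card : ℝ) ≤ Real.log N.minFac ^ (1 - ε) →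
      ∃ p ∈ N.primeFactors, ∀ l ∈ S, ¬ l ∣ N.factorization p + 1) ∧
    (∃ p ∈ N.primeFactors, ∀ l : ℕ, l.Prime → l ∣ N.factorization p + 1 →
      Real.log N.minFac ^ (1 - ε) < l) ∧
    (((N.primeFactors.image N.factorization).card : ℝ) ≤ Real.log N.minFac ^ (1 - ε) →
      (∃ p ∈ N.primeFactors, Real.log N.minFac ^ A < (N.factorization p : ℝ)) ∧
      (N.minFac : ℝ) ^ 2 * Real.log N.minFac ^ A ≤ Real.log N ∧
      (N.minFac : ℝ) ^ 2 * Real.log N.minFac ^ A ≤ (ArithmeticFunction.cardFactors N : ℝ)) := by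
  obtain ⟨P1, _, h1⟩ := Pool.Agent.N672.Opn.count_min ε hε A
  obtain ⟨P2, h2⟩ := Pool.Agent.N672.Opn.size_fin ε hε
  obtain ⟨P3, h3⟩ := Pool.Agent.N672.Opn.cover ε hε A
  obtain ⟨P4, h4⟩ := Pool.Agent.N672.Opn.rough_fin ε hε
  obtain ⟨P5, h5⟩ := Pool.Agent.N672.Opn.few_fin ε hε A
  refine ⟨max (max P1 P2) (max P3 (max P4 P5)), fun N hodd hperf hP => ?_⟩
  have g1 : P1 ≤ N.minFac := ((le_max_left _ _).trans (le_max_left _ _)).trans hP
  have g2 : P2 ≤ N.minFac := ((le_max_right _ _).trans (le_max_left _ _)).trans hP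
  have g3 : P3 ≤ N.minFac := ((le_max_left _ _).trans (le_max_right _ _)).trans hP
  have g4 : P4 ≤ N.minFac :=
    ((le_max_left _ _).trans ((le_max_right _ _).trans (le_max_right _ _))).trans hP
  have g5 : P5 ≤ N.minFac :=
    ((le_max_right _ _).trans ((le_max_right _ _).trans (le_max_right _ _))).trans hP
  have hOm : (ArithmeticFunction.cardFactors N : ℝ) = ∑ p ∈ N.primeFactors, (N.factorization p : ℝ) := by
    rw [ArithmeticFunction.cardFactors_eq_sum_factorization]
    unfold Finsupp.sum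
    rw [Nat.support_factorization]
    push_cast
    rfl
  have hsum := (Nat.perfect_iff_sum_divisors_eq_two_mul hperf.2).1 hperf
  refine ⟨fun l hl hlP x hx => h1 N hperf.2.ne' hsum g1 l hl hlP x hx, (h2 N hodd hperf g2).1, ?_,
    h3 N hodd hperf g3, h4 N hodd hperf g4, fun hfew => ?_⟩
  · rw [hOm]; exact (h2 N hodd hperf g2).2
  · rw [hOm]; exact h5 N hodd hperf g5 hfew

end Pool.Agent.Results.MP_f02ea4_nt.UniformExponents
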